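import Pool.Agent.H31.PC.Targets
import Pool.Agent.H31.RZ.Unit

/-!
# MP_6e60ff_nt, board `pc_modules`: [OM] powers of the number of prime factors
-/

set_option autoImplicit false

namespace Pool.Agent.H1.PC.OM

open Finset Pool.Agent.H31.PC Pool.Agent.H31.RZ

theorem pf_OM : T_OM := by
  intro D ε hε
  obtain ⟨m, hm⟩ : ∃ m : ℕ, D ≤ 2 ^ (m + 1) :=
    ⟨D, (Nat.lt_two_pow_self (n := D)).le.trans (Nat.pow_le_pow_right (by norm_num) (by omega))⟩
  have hmpos : (0 : ℝ) < ((m + 1 : ℕ) : ℝ) := by positivity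
  obtain ⟨C, hC1, hC⟩ := two_pow_omega (ε := ε / ((m + 1 : ℕ) : ℝ)) (by positivity)
  refine ⟨C ^ (m + 1), one_le_pow₀ hC1, fun n hn => ?_⟩
  have hD : (D : ℝ) ≤ (2 : ℝ) ^ (m + 1) := by exact_mod_cast hm
  calc (D : ℝ) ^ #n.primeFactors ≤ ((2 : ℝ) ^ (m + 1)) ^ #n.primeFactors :=
        pow_le_pow_left₀ (by positivity) hD _
    _ = ((2 : ℝ) ^ #n.primeFactors) ^ (m + 1) := by rw [← pow_mul, ← pow_mul, mul_comm]
    _ ≤ (C * (n : ℝ) ^ (ε / ((m + 1 : ℕ) : ℝ))) ^ (m + 1) :=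
        pow_le_pow_left₀ (by positivity) (hC n hn) _
    _ = C ^ (m + 1) * (n : ℝ) ^ ε := by
        rw [mul_pow]
        congr 1
        rw [← Real.rpow_natCast, ← Real.rpow_mul (by positivity), div_mul_cancel₀ _ hmpos.ne']

end Pool.Agent.H1.PC.OM
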